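import Pool.Agent.Run7.h380.SY.Sym

/-!
# The dichotomy for random relations with symmetries (helper380)
-/

set_option autoImplicit false

namespace Run7.h380.SY

open Finset
open Pool.Agent.W994.AR
open Pool.Agent.N455.CS
open scoped Classical

variable {B : Type}

/-- Every template which consists of finitely many invariant relations `Γ` of arity at most `r` and
of at least one of the relations `R j` has a constant endomorphism or is as hard as possible. -/
def Dichotomy {B σ : Type} {arB : σ → ℕ} (𝔹 : Str σ arB B) (r : ℕ) {t : ℕ} {k : Fin t → ℕ}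
    (R : ∀ j, Set (Fin (k j) → B)) : Prop :=
  ∀ (ι : Type) [Finite ι] (arΓ : ι → ℕ) (Γ : Str ι arΓ B), (∀ l, arΓ l ≤ r) →
    (∀ l, Invar (autGroup 𝔹) (Γ l)) → ∀ (s : ℕ) (e : Fin s → Fin t), 1 ≤ s →
      ConstEndo (expand Γ (fun j => R (e j))) ∨
        PPMax (autGroup 𝔹) (expand Γ (fun j => R (e j)))

theorem finite_classes {G : Subgroup (Equiv.Perm B)} (hfin : ∀ k, Finite (Orb G (Fin k)))
    {t : ℕ} (k : Fin t → ℕ) (E : ∀ j, Setoid (Fin (k j) → B))
    (h1 : ∀ j u v, Same G u v → (E j).r u v) : Finite (Classes k E) := by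
  have : ∀ j, Finite (Quotient (E j)) := by
    intro j
    have := hfin (k j)
    refine Finite.of_surjective (Quotient.map' (s₁ := orb G (Fin (k j))) (s₂ := E j) id
      (fun u v h => h1 j _ _ h)) ?_
    intro x
    obtain ⟨v, rfl⟩ := Quotient.exists_rep x
    exact ⟨Quotient.mk (orb G (Fin (k j))) v, rfl⟩
  infer_instance

theorem law_bound {σ : Type} [Nontrivial B] [Finite σ] {arB : σ → ℕ} (𝔹 : Str σ arB B)
    (h𝔹 : Homogeneous 𝔹) (r : ℕ) : ∃ N Q : ℕ, 0 < N ∧ 0 < Q ∧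
      ∀ (t : ℕ) (k : Fin t → ℕ) (n : ℕ), (∀ j, n ≤ k j) →
      ∀ E : ∀ j, Setoid (Fin (k j) → B),
        (∀ j u v, Same (autGroup 𝔹) u v → (E j).r u v) →
        (∀ j u v, (E j).r u v → SameUpToPerm (autGroup 𝔹) u v) →
        ∀ ε : ℝ, 0 ≤ ε → ε ≤ 1 → ∀ μ : Set (Classes k E) → ℝ, IsLaw μ → FiniteEnergy ε μ →
          prob μ (fun Θ => ¬ Dichotomy 𝔹 r (relOf k E Θ)) ≤
            t * (N * (1 - ε ^ N) ^ (n / Q)) := by
  obtain ⟨M, hM, hdich⟩ := dich_of_rich 𝔹 h𝔹 r
  obtain ⟨m, rfl⟩ := Nat.exists_eq_succ_of_ne_zero hM.ne'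
  have hfin : ∀ k, Finite (Orb (autGroup 𝔹) (Fin k)) := fun k => hom_finite h𝔹 (Fin k)
  have hf := hfin (m + 1)
  have hne : Nonempty (Orb (autGroup 𝔹) (Fin (m + 1))) :=
    ⟨Quotient.mk (orb (autGroup 𝔹) (Fin (m + 1))) (fun _ => (exists_pair_ne B).choose)⟩
  refine ⟨Nat.card (Orb (autGroup 𝔹) (Fin (m + 1))), 2 * ((m + 1) * 2 ^ (m + 1)),
    Nat.card_pos, by positivity, ?_⟩
  set N := Nat.card (Orb (autGroup 𝔹) (Fin (m + 1))) with hN
  intro t k n hn E hE1 hE2 ε hε hε1 μ hμ hFE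
  have := finite_classes hfin k E hE1
  have := Fintype.ofFinite (Classes k E)
  set J := n / (2 * ((m + 1) * 2 ^ (m + 1))) with hJ
  have hJk : ∀ j, 2 * ((m + 1) * J * 2 ^ (m + 1)) ≤ k j := by
    intro j
    refine le_trans ?_ (hn j)
    have := Nat.div_mul_le_self n (2 * ((m + 1) * 2 ^ (m + 1)))
    rw [← hJ] at this
    calc 2 * ((m + 1) * J * 2 ^ (m + 1)) = J * (2 * ((m + 1) * 2 ^ (m + 1))) := by ring
      _ ≤ n := this
  have hone : ∀ j, ∑ R ∈ (Finset.univ : Finset (Finset (Classes k E))).filter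
        (fun R : Finset (Classes k E) =>
          ¬ Rich (autGroup 𝔹) (Fin (m + 1)) (relOf k E (R : Set (Classes k E)) j)),
          μ (R : Set (Classes k E)) ≤ N * (1 - ε ^ N) ^ J := by
    intro j
    have h := rich_weight_sym (autGroup 𝔹) k E hE1 hE2 j m J (hJk j) hε hε1
      (μ := fun R : Finset (Classes k E) => μ (R : Set (Classes k E))) (fun R => hμ.1 _) hFE.fe
    rw [hμ.sum, mul_one, ← hN] at h
    exact h
  refine le_trans (prob_le hμ.1 (Q := fun R : Finset (Classes k E) =>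
    ¬ ∀ j, Rich (autGroup 𝔹) (Fin (m + 1)) (relOf k E (R : Set (Classes k E)) j)) ?_) ?_
  · intro R hR hrich
    apply hR
    intro ι _ arΓ Γ hr hΓ s e hs
    exact hdich ι arΓ Γ hr hΓ s hs (fun j => k (e j))
      (fun j => ⟨relOf k E (R : Set (Classes k E)) (e j), invar_relOf k E hE1 _ _⟩)
      (fun j => hrich (e j))
  · calc _ ≤ ∑ R ∈ (Finset.univ : Finset (Fin t)).biUnion (fun j =>
          (Finset.univ : Finset (Finset (Classes k E))).filter (fun R : Finset (Classes k E) =>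
            ¬ Rich (autGroup 𝔹) (Fin (m + 1)) (relOf k E (R : Set (Classes k E)) j))),
            μ (R : Set (Classes k E)) := by
          refine Finset.sum_le_sum_of_subset_of_nonneg ?_ fun R _ _ => hμ.1 _
          intro R hR
          obtain ⟨j, hj⟩ := not_forall.1 (Finset.mem_filter.1 hR).2
          exact Finset.mem_biUnion.2 ⟨j, Finset.mem_univ _,
            Finset.mem_filter.2 ⟨Finset.mem_univ _, hj⟩⟩
      _ ≤ ∑ j : Fin t, ∑ R ∈ (Finset.univ : Finset (Finset (Classes k E))).filter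
        (fun R : Finset (Classes k E) =>
          ¬ Rich (autGroup 𝔹) (Fin (m + 1)) (relOf k E (R : Set (Classes k E)) j)),
          μ (R : Set (Classes k E)) :=
          sum_biUnion_le' _ _ (fun R : Finset (Classes k E) => μ (R : Set (Classes k E)))
            (fun R => hμ.1 _)
      _ ≤ ∑ _j : Fin t, N * (1 - ε ^ N) ^ J := Finset.sum_le_sum fun j _ => hone j
      _ = _ := by
          rw [Finset.sum_const, Finset.card_univ, Fintype.card_fin, nsmul_eq_mul]

/-- the orbit equivalence relation of `G × H` -/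
def symSetoid (G : Subgroup (Equiv.Perm B)) {k : ℕ} (H : Subgroup (Equiv.Perm (Fin k))) :
    Setoid (Fin k → B) where
  r u v := ∃ g ∈ G, ∃ π ∈ H, ∀ i, g (u (π i)) = v i
  iseqv := by
    refine ⟨fun u => ⟨1, G.one_mem, 1, H.one_mem, fun _ => rfl⟩, ?_, ?_⟩
    · rintro u v ⟨g, hg, π, hπ, h⟩
      refine ⟨g⁻¹, G.inv_mem hg, π⁻¹, H.inv_mem hπ, fun i => ?_⟩
      rw [← h (π⁻¹ i)]
      simp
    · rintro u v w ⟨g, hg, π, hπ, h⟩ ⟨g', hg', π', hπ', h'⟩
      refine ⟨g' * g, G.mul_mem hg' hg, π * π', H.mul_mem hπ hπ', fun i => ?_⟩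
      rw [Equiv.Perm.mul_apply, Equiv.Perm.mul_apply, h, h']

/-- The relations of arity `k` which are invariant under `G` and under the permutations of the
coordinates in `H`. -/
abbrev SymRel (G : Subgroup (Equiv.Perm B)) {k : ℕ} (H : Subgroup (Equiv.Perm (Fin k))) : Type :=
  {R : Set (Fin k → B) // Invar G R ∧ ∀ π ∈ H, ∀ v ∈ R, v ∘ π ∈ R}

theorem mem_of_sym {G : Subgroup (Equiv.Perm B)} {k : ℕ} {H : Subgroup (Equiv.Perm (Fin k))}
    (R : SymRel G H) {u v : Fin k → B} (h : (symSetoid G H).r u v) (hu : u ∈ R.1) : v ∈ R.1 := by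
  obtain ⟨g, hg, π, hπ, h⟩ := h
  have h1 := R.2.2 π hπ u hu
  have h2 := R.2.1 g hg _ h1
  have e : (fun i => g ((u ∘ π) i)) = v := funext h
  rwa [e] at h2

/-- relations with symmetries are sets of classes -/
noncomputable def symEquiv (G : Subgroup (Equiv.Perm B)) {k : ℕ}
    (H : Subgroup (Equiv.Perm (Fin k))) :
    SymRel G H ≃ Set (Classes (t := 1) (fun _ => k) (fun _ => symSetoid G H)) where
  toFun R := {x | ∃ v ∈ R.1, Quotient.mk (symSetoid G H) v = x.2}
  invFun Θ := ⟨relOf (t := 1) (fun _ => k) (fun _ => symSetoid G H) Θ 0, by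
    constructor
    · refine invar_relOf (t := 1) (fun _ => k) (fun _ => symSetoid G H) ?_ Θ 0
      rintro j u v ⟨g, hg, h⟩
      exact ⟨g, hg, 1, H.one_mem, h⟩
    · intro π hπ v hv
      rw [mem_relOf] at hv ⊢
      have : (Quotient.mk (symSetoid G H) v) = Quotient.mk (symSetoid G H) (v ∘ π) :=
        Quotient.sound ⟨1, G.one_mem, π, hπ, fun _ => rfl⟩
      have h2 : (⟨0, Quotient.mk (symSetoid G H) (v ∘ π)⟩ :
          Classes (t := 1) (fun _ => k) (fun _ => symSetoid G H)) =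
          ⟨0, Quotient.mk (symSetoid G H) v⟩ := by rw [this]
      exact h2 ▸ hv⟩
  left_inv R := by
    apply Subtype.ext
    ext v
    constructor
    · rintro ⟨u, hu, h⟩
      exact mem_of_sym R (Quotient.exact h) hu
    · intro hv
      exact ⟨v, hv, rfl⟩
  right_inv Θ := by
    ext ⟨j, x⟩
    have hj : j = 0 := Subsingleton.elim _ _
    subst hj
    obtain ⟨v, rfl⟩ := Quotient.exists_rep x
    constructor
    · rintro ⟨u, hu, h⟩
      rw [mem_relOf] at hu
      have h3 : (⟨0, Quotient.mk (symSetoid G H) u⟩ :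
          Classes (t := 1) (fun _ => k) (fun _ => symSetoid G H)) =
          ⟨0, Quotient.mk (symSetoid G H) v⟩ := by
        congr 1
      exact h3 ▸ hu
    · intro hv
      exact ⟨v, hv, rfl⟩

theorem prob_uniform {Ω : Type} [Finite Ω] (P : Set Ω → Prop) :
    prob (fun _ => (Nat.card (Set Ω) : ℝ)⁻¹) P = Nat.card {Θ // P Θ} * (Nat.card (Set Ω) : ℝ)⁻¹ := by
  have := Fintype.ofFinite (Set Ω)
  have := Fintype.ofFinite {Θ : Set Ω // P Θ}
  unfold prob
  rw [tsum_fintype, Finset.sum_const, Finset.card_univ, nsmul_eq_mul,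
    Nat.card_eq_fintype_card (α := {Θ : Set Ω // P Θ})]

theorem count_bound {σ : Type} [Nontrivial B] [Finite σ] {arB : σ → ℕ} (𝔹 : Str σ arB B)
    (h𝔹 : Homogeneous 𝔹) (r : ℕ) : ∃ N Q : ℕ, 0 < N ∧ 0 < Q ∧
      ∀ (k : ℕ) (H : Subgroup (Equiv.Perm (Fin k))),
        Finite (SymRel (autGroup 𝔹) H) ∧
        (Nat.card {R : SymRel (autGroup 𝔹) H //
          ¬ Dichotomy 𝔹 r (t := 1) (k := fun _ => k) (fun _ => R.1)} : ℝ) ≤
          N * (1 - (2⁻¹ : ℝ) ^ N) ^ (k / Q) * Nat.card (SymRel (autGroup 𝔹) H) := by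
  obtain ⟨N, Q, hN, hQ, h⟩ := law_bound 𝔹 h𝔹 r
  refine ⟨N, Q, hN, hQ, ?_⟩
  intro k H
  have hfin : ∀ k, Finite (Orb (autGroup 𝔹) (Fin k)) := fun k => hom_finite h𝔹 (Fin k)
  set E : ∀ _ : Fin 1, Setoid (Fin k → B) := fun _ => symSetoid (autGroup 𝔹) H with hE
  have h1 : ∀ j u v, Same (autGroup 𝔹) u v → (E j).r u v := by
    rintro j u v ⟨g, hg, h⟩
    exact ⟨g, hg, 1, H.one_mem, h⟩
  have h2 : ∀ j u v, (E j).r u v → SameUpToPerm (autGroup 𝔹) u v := by
    rintro j u v ⟨g, hg, π, _, h⟩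
    exact ⟨g, hg, π, h⟩
  have hfc : Finite (Classes (t := 1) (fun _ => k) E) := finite_classes hfin _ E h1
  have hfs : Finite (Set (Classes (t := 1) (fun _ => k) E)) := inferInstance
  have hfR : Finite (SymRel (autGroup 𝔹) H) := Finite.of_equiv _ (symEquiv (autGroup 𝔹) H).symm
  refine ⟨hfR, ?_⟩
  set c : ℝ := (Nat.card (Set (Classes (t := 1) (fun _ => k) E)) : ℝ)⁻¹ with hc
  have hpos : (0 : ℝ) < Nat.card (Set (Classes (t := 1) (fun _ => k) E)) := by
    exact_mod_cast Nat.card_pos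
  have hc0 : 0 < c := inv_pos.2 hpos
  have hlaw : IsLaw (fun _ : Set (Classes (t := 1) (fun _ => k) E) => c) := by
    have := Fintype.ofFinite (Classes (t := 1) (fun _ => k) E)
    refine isLaw_of_sum (fun _ => hc0.le) ?_
    rw [Finset.sum_const, Finset.card_univ, nsmul_eq_mul]
    have h3 : (Fintype.card (Finset (Classes (t := 1) (fun _ => k) E)) : ℝ) =
        Nat.card (Set (Classes (t := 1) (fun _ => k) E)) := by
      rw [Nat.card_eq_fintype_card, Fintype.card_set, Fintype.card_finset]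
    rw [h3, hc, mul_inv_cancel₀ hpos.ne']
  have hFE : FiniteEnergy (2⁻¹ : ℝ) (fun _ : Set (Classes (t := 1) (fun _ => k) E) => c) := by
    intro Θ o
    constructor <;> · show (2⁻¹ : ℝ) * (c + c) ≤ c
                      linarith
  have h3 := h 1 (fun _ => k) k (fun _ => le_rfl) E h1 h2 (2⁻¹) (by norm_num) (by norm_num) _ hlaw hFE
  rw [hc, prob_uniform, ← hc, Nat.cast_one, one_mul] at h3
  have h4 : Nat.card {R : SymRel (autGroup 𝔹) H //
      ¬ Dichotomy 𝔹 r (t := 1) (k := fun _ => k) (fun _ => R.1)} =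
      Nat.card {Θ : Set (Classes (t := 1) (fun _ => k) E) //
        ¬ Dichotomy 𝔹 r (relOf (t := 1) (fun _ => k) E Θ)} := by
    refine Nat.card_congr (Equiv.subtypeEquiv (symEquiv (autGroup 𝔹) H) ?_)
    intro R
    have h5 : (fun _ : Fin 1 => R.1) =
        relOf (t := 1) (fun _ => k) E (symEquiv (autGroup 𝔹) H R) := by
      funext j
      have hj : j = 0 := Subsingleton.elim _ _
      subst hj
      have := congrArg Subtype.val ((symEquiv (autGroup 𝔹) H).left_inv R)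
      exact this.symm
    rw [h5]
  have h6 : Nat.card (SymRel (autGroup 𝔹) H) =
      Nat.card (Set (Classes (t := 1) (fun _ => k) E)) := Nat.card_congr (symEquiv (autGroup 𝔹) H)
  rw [h4, h6]
  calc (Nat.card {Θ : Set (Classes (t := 1) (fun _ => k) E) //
        ¬ Dichotomy 𝔹 r (relOf (t := 1) (fun _ => k) E Θ)} : ℝ)
      = Nat.card {Θ : Set (Classes (t := 1) (fun _ => k) E) //
        ¬ Dichotomy 𝔹 r (relOf (t := 1) (fun _ => k) E Θ)} * c *
          Nat.card (Set (Classes (t := 1) (fun _ => k) E)) := by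
        rw [mul_assoc, hc, inv_mul_cancel₀ hpos.ne', mul_one]
    _ ≤ _ := mul_le_mul_of_nonneg_right h3 hpos.le

end Run7.h380.SY
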