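import Pool.Agent.Run7.h380.SY.Words
import Pool.Agent.N455.CS.Uni
import Pool.Agent.N455.CS.Law

/-!
# Random relations with symmetries are rich (helper380)
-/

set_option autoImplicit false

namespace Run7.h380.SY

open Finset
open Pool.Agent.W994.AR
open Pool.Agent.N455.CS
open scoped Classical

variable {B : Type}

/-- `v` arises from `u` by a permutation of the coordinates and an element of the group `G`. -/
def SameUpToPerm (G : Subgroup (Equiv.Perm B)) {V : Type} (u v : V → B) : Prop :=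
  ∃ g ∈ G, ∃ π : Equiv.Perm V, ∀ i, g (u (π i)) = v i

/-- the classes of tuples of the lengths `k 0, ..., k (t - 1)` -/
abbrev Classes {t : ℕ} (k : Fin t → ℕ) (E : ∀ j, Setoid (Fin (k j) → B)) : Type :=
  (j : Fin t) × Quotient (E j)

/-- the `j`-th relation given by a set of classes -/
def relOf {t : ℕ} (k : Fin t → ℕ) (E : ∀ j, Setoid (Fin (k j) → B)) (Θ : Set (Classes k E))
    (j : Fin t) : Set (Fin (k j) → B) :=
  {v | (⟨j, Quotient.mk (E j) v⟩ : Classes k E) ∈ Θ}

theorem mem_relOf {t : ℕ} (k : Fin t → ℕ) (E : ∀ j, Setoid (Fin (k j) → B))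
    (Θ : Set (Classes k E)) (j : Fin t) (v : Fin (k j) → B) :
    v ∈ relOf k E Θ j ↔ (⟨j, Quotient.mk (E j) v⟩ : Classes k E) ∈ Θ := Iff.rfl

theorem invar_relOf {G : Subgroup (Equiv.Perm B)} {t : ℕ} (k : Fin t → ℕ)
    (E : ∀ j, Setoid (Fin (k j) → B)) (h1 : ∀ j u v, Same G u v → (E j).r u v)
    (Θ : Set (Classes k E)) (j : Fin t) : Invar G (relOf k E Θ j) := by
  intro g hg v hv
  rw [mem_relOf] at hv ⊢
  have : (Quotient.mk (E j) v) = Quotient.mk (E j) (fun i => g (v i)) :=
    Quotient.sound (h1 j _ _ ⟨g, hg, fun _ => rfl⟩)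
  rwa [← this]

theorem word_key {G : Subgroup (Equiv.Perm B)} {m J k s s' : ℕ}
    (hk : 2 * ((m + 1) * J * 2 ^ (m + 1)) ≤ k) (hs : 1 ≤ s) (hsJ : s ≤ J) (hs1' : 1 ≤ s')
    (hs'J : s' ≤ J) {w w' : Fin k → Fin (m + 1)}
    (hw : ∀ i, (univ.filter (fun p => w p = i)).card = mult k ((m + 1) * J) s i)
    (hw' : ∀ i, (univ.filter (fun p => w' p = i)).card = mult k ((m + 1) * J) s' i)
    {u v : Fin (m + 1) → B} (hu : NC u) (hv : NC v)
    (h : SameUpToPerm G (u ∘ w) (v ∘ w')) : s = s' ∧ Same G u v := by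
  obtain ⟨g, hg, π, h⟩ := h
  have hJ : 1 ≤ J := hs.trans hsJ
  have key : ∀ i0 : Fin (m + 1), s = s' ∧ g (u i0) = v i0 := by
    intro i0
    set b := g (u i0) with hb
    have hsum : ∑ i ∈ univ.filter (fun i => g (u i) = b), mult k ((m + 1) * J) s i =
        ∑ i ∈ univ.filter (fun i => v i = b), mult k ((m + 1) * J) s' i := by
      rw [← card_comp hw (fun i => g (u i) = b), ← card_comp hw' (fun i => v i = b)]
      symm
      refine Finset.card_bij' (fun p _ => π p) (fun p _ => π.symm p) ?_ ?_ ?_ ?_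
      · intro p hp
        rw [mem_filter] at hp ⊢
        refine ⟨mem_univ _, ?_⟩
        have := h p
        simp only [Function.comp] at this
        rw [this]
        exact hp.2
      · intro p hp
        rw [mem_filter] at hp ⊢
        refine ⟨mem_univ _, ?_⟩
        have := h (π.symm p)
        simp only [Function.comp, Equiv.apply_symm_apply] at this
        rw [← this]
        exact hp.2
      · intro p _
        simp
      · intro p _
        simp
    have hI : (univ.filter (fun i => g (u i) = b)).Nonempty :=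
      ⟨i0, mem_filter.2 ⟨mem_univ _, hb.symm⟩⟩
    have hIc : (univ.filter (fun i => g (u i) = b))ᶜ.Nonempty := by
      obtain ⟨x, y, hxy⟩ := hu
      by_contra hcon
      rw [not_nonempty_iff_eq_empty, compl_eq_empty_iff] at hcon
      have hx : x ∈ univ.filter (fun i => g (u i) = b) := by rw [hcon]; exact mem_univ _
      have hy : y ∈ univ.filter (fun i => g (u i) = b) := by rw [hcon]; exact mem_univ _
      exact hxy (g.injective ((mem_filter.1 hx).2.trans (mem_filter.1 hy).2.symm))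
    have hIc' : (univ.filter (fun i => v i = b))ᶜ.Nonempty := by
      obtain ⟨x, y, hxy⟩ := hv
      by_contra hcon
      rw [not_nonempty_iff_eq_empty, compl_eq_empty_iff] at hcon
      have hx : x ∈ univ.filter (fun i => v i = b) := by rw [hcon]; exact mem_univ _
      have hy : y ∈ univ.filter (fun i => v i = b) := by rw [hcon]; exact mem_univ _
      exact hxy ((mem_filter.1 hx).2.trans (mem_filter.1 hy).2.symm)
    obtain ⟨h1, h2⟩ := mult_inj hk hJ hs hsJ hs1' hs'J hI hIc hIc' hsum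
    refine ⟨h1, ?_⟩
    have h3 : i0 ∈ univ.filter (fun i => v i = b) := by
      rw [← h2]
      exact mem_filter.2 ⟨mem_univ _, hb.symm⟩
    exact (mem_filter.1 h3).2.symm
  exact ⟨(key 0).1, g, hg, fun i => (key i).2⟩

theorem rich_weight_sym (G : Subgroup (Equiv.Perm B)) {t : ℕ} (k : Fin t → ℕ)
    (E : ∀ j, Setoid (Fin (k j) → B)) (h1 : ∀ j u v, Same G u v → (E j).r u v)
    (h2 : ∀ j u v, (E j).r u v → SameUpToPerm G u v) (j : Fin t) (m J : ℕ)
    (hk : 2 * ((m + 1) * J * 2 ^ (m + 1)) ≤ k j) [hF : Finite (Orb G (Fin (m + 1)))]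
    [Fintype (Classes k E)]
    {ε : ℝ} (hε : 0 ≤ ε) (hε1 : ε ≤ 1) {μ : Finset (Classes k E) → ℝ} (hμ0 : ∀ R, 0 ≤ μ R)
    (hμ : FE ε μ) :
    ∑ R ∈ (Finset.univ : Finset (Finset (Classes k E))).filter
        (fun R : Finset (Classes k E) =>
          ¬ Rich G (Fin (m + 1)) (relOf k E (R : Set (Classes k E)) j)), μ R ≤
      Nat.card (Orb G (Fin (m + 1))) *
        ((1 - ε ^ Nat.card (Orb G (Fin (m + 1)))) ^ J * ∑ R, μ R) := by
  have := Fintype.ofFinite (Orb G (Fin (m + 1)))
  -- the words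
  have hwex : ∀ s : ℕ, ∃ w : Fin (k j) → Fin (m + 1), s ∈ Icc 1 J →
      ∀ i, (univ.filter (fun p => w p = i)).card = mult (k j) ((m + 1) * J) s i := by
    intro s
    by_cases hs : s ∈ Icc 1 J
    · obtain ⟨w, hw⟩ := exists_word (mult (k j) ((m + 1) * J) s (m := m))
        (sum_mult hk (mem_Icc.1 hs).2)
      exact ⟨w, fun _ => hw⟩
    · exact ⟨fun _ => 0, fun h => absurd h hs⟩
  choose wd hwd using hwex
  -- the map on orbits
  let φ : ℕ → Orb G (Fin (m + 1)) → Quotient (E j) := fun A =>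
    Quotient.map' (s₁ := orb G (Fin (m + 1))) (s₂ := E j) (fun u => u ∘ wd A)
      (fun u v h => h1 j _ _ (Same.comp h _))
  have hφ : ∀ A u, φ A (Quotient.mk (orb G (Fin (m + 1))) u) =
      Quotient.mk (E j) (u ∘ wd A) := fun A u => rfl
  let ncO : Finset (Orb G (Fin (m + 1))) :=
    Finset.univ.filter (fun o => ∃ u, NC u ∧ Quotient.mk (orb G (Fin (m + 1))) u = o)
  have hφkey : ∀ A A', A ∈ Icc 1 J → A' ∈ Icc 1 J → ∀ o ∈ ncO, ∀ o' ∈ ncO,
      φ A o = φ A' o' → A = A' ∧ o = o' := by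
    intro A A' hA hA' o ho o' ho' h
    obtain ⟨u, hu, rfl⟩ := (Finset.mem_filter.1 ho).2
    obtain ⟨v, hv, rfl⟩ := (Finset.mem_filter.1 ho').2
    obtain ⟨h3, h4⟩ := word_key hk (mem_Icc.1 hA).1 (mem_Icc.1 hA).2 (mem_Icc.1 hA').1
      (mem_Icc.1 hA').2 (hwd A hA) (hwd A' hA') hu hv (h2 j _ _ (Quotient.exact h))
    exact ⟨h3, Quotient.sound h4⟩
  let ψ : ℕ → Orb G (Fin (m + 1)) → Classes k E := fun A o => ⟨j, φ A o⟩
  have hψ : ∀ A o A' o', ψ A o = ψ A' o' → φ A o = φ A' o' := by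
    intro A o A' o' h
    exact eq_of_heq (Sigma.mk.inj h).2
  let D : ℕ → Finset (Classes k E) := fun A => ncO.image (ψ A)
  let T : Orb G (Fin (m + 1)) → ℕ → Finset (Classes k E) := fun o A =>
    (ncO.erase o).image (ψ A)
  let W : Finset ℕ := Finset.Icc 1 J
  have hWcard : W.card = J := by
    simp [W]
  have hcount : ∀ o, ∑ R ∈ (Finset.univ : Finset (Finset (Classes k E))).filter
      (fun R => Avoid W D (T o) R), μ R ≤
      (1 - ε ^ Nat.card (Orb G (Fin (m + 1)))) ^ J * ∑ R, μ R := by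
    intro o
    rw [← hWcard]
    apply wcount hε hε1 hμ0 hμ
    · intro w _
      rw [Nat.card_eq_fintype_card]
      exact (Finset.card_image_le).trans (Finset.card_le_univ _)
    · intro w hw w' hw' hne
      rw [Finset.disjoint_left]
      intro x hx hx'
      obtain ⟨o1, ho1, h3⟩ := Finset.mem_image.1 hx
      obtain ⟨o2, ho2, h4⟩ := Finset.mem_image.1 hx'
      rw [← h4] at h3
      exact hne (hφkey w w' hw hw' o1 ho1 o2 ho2 (hψ _ _ _ _ h3)).1
  have himg : ∀ R : Finset (Classes k E),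
      ¬ Rich G (Fin (m + 1)) (relOf k E (R : Set (Classes k E)) j) →
      ∃ o : Orb G (Fin (m + 1)), Avoid W D (T o) R := by
    intro R hR
    unfold Rich at hR
    push Not at hR
    obtain ⟨v, hv, hbad⟩ := hR
    refine ⟨Quotient.mk (orb G (Fin (m + 1))) v, ?_⟩
    intro A hAW hEq
    have hvnc : Quotient.mk (orb G (Fin (m + 1))) v ∈ ncO :=
      Finset.mem_filter.2 ⟨Finset.mem_univ _, v, hv, rfl⟩
    have h5 : v ∘ wd A ∉ relOf k E (R : Set (Classes k E)) j := by
      intro hin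
      rw [mem_relOf, Finset.mem_coe] at hin
      have h2 : ψ A (Quotient.mk (orb G (Fin (m + 1))) v) ∈ D A := Finset.mem_image_of_mem _ hvnc
      have h4 := (hEq _ h2).1 hin
      obtain ⟨o', ho', h3⟩ := Finset.mem_image.1 h4
      have := (hφkey A A hAW hAW _ (Finset.mem_of_mem_erase ho') _ hvnc (hψ _ _ _ _ h3)).2
      rw [this] at ho'
      exact Finset.notMem_erase _ _ ho'
    obtain ⟨u, hu, hus, hun⟩ := hbad (wd A) h5
    apply hun
    rw [mem_relOf, Finset.mem_coe]
    have hunc : Quotient.mk (orb G (Fin (m + 1))) u ∈ ncO :=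
      Finset.mem_filter.2 ⟨Finset.mem_univ _, u, hu, rfl⟩
    have h2 : ψ A (Quotient.mk (orb G (Fin (m + 1))) u) ∈
        T (Quotient.mk (orb G (Fin (m + 1))) v) A := by
      apply Finset.mem_image_of_mem
      rw [Finset.mem_erase]
      exact ⟨fun h => hus (Quotient.exact h), hunc⟩
    exact (hEq _ (Finset.mem_image_of_mem _ hunc)).2 h2
  calc _ ≤ ∑ R ∈ (Finset.univ : Finset (Orb G (Fin (m + 1)))).biUnion (fun o =>
          (Finset.univ : Finset (Finset (Classes k E))).filter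
            (fun R => Avoid W D (T o) R)), μ R := by
        refine Finset.sum_le_sum_of_subset_of_nonneg ?_ fun R _ _ => hμ0 R
        intro R hR
        obtain ⟨o, ho⟩ := himg R (Finset.mem_filter.1 hR).2
        exact Finset.mem_biUnion.2 ⟨o, Finset.mem_univ _,
          Finset.mem_filter.2 ⟨Finset.mem_univ _, ho⟩⟩
    _ ≤ ∑ o : Orb G (Fin (m + 1)), ∑ R ∈ (Finset.univ : Finset (Finset (Classes k E))).filter
        (fun R => Avoid W D (T o) R), μ R := sum_biUnion_le' _ _ _ hμ0
    _ ≤ ∑ o : Orb G (Fin (m + 1)),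
        (1 - ε ^ Nat.card (Orb G (Fin (m + 1)))) ^ J * ∑ R, μ R :=
        Finset.sum_le_sum (fun o _ => hcount o)
    _ = _ := by
        rw [Finset.sum_const, Finset.card_univ, nsmul_eq_mul, Nat.card_eq_fintype_card]

end Run7.h380.SY
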