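import Mathlib

/-!
# Words whose multiplicities have distinct subset sums (helper380)
-/

set_option autoImplicit false

namespace Run7.h380.SY

open Finset
open scoped Classical

theorem exists_word {M k : ℕ} (a : Fin M → ℕ) (ha : ∑ i, a i = k) :
    ∃ w : Fin k → Fin M, ∀ i, (univ.filter (fun p => w p = i)).card = a i := by
  subst ha
  refine ⟨fun p => (finSigmaFinEquiv.symm p).1, fun i => ?_⟩
  have h1 : (univ.filter (fun p : Fin (∑ i, a i) => (finSigmaFinEquiv.symm p).1 = i)).card =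
      (univ.filter (fun x : (Σ i, Fin (a i)) => x.1 = i)).card := by
    refine Finset.card_bij' (fun p _ => finSigmaFinEquiv.symm p) (fun x _ => finSigmaFinEquiv x)
      ?_ ?_ ?_ ?_
    · intro p hp
      simpa using hp
    · intro x hx
      simpa using hx
    · intro p _
      simp
    · intro x _
      simp
  rw [h1]
  have h2 : (univ.filter (fun x : (Σ i, Fin (a i)) => x.1 = i)) =
      (univ : Finset (Fin (a i))).map ⟨fun y => (⟨i, y⟩ : Σ i, Fin (a i)), fun x y h => by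
        simpa using h⟩ := by
    ext ⟨j, y⟩
    simp only [mem_filter, mem_univ, true_and, mem_map]
    constructor
    · rintro rfl
      exact ⟨y, rfl⟩
    · rintro ⟨z, hz⟩
      exact (Sigma.mk.inj hz).1.symm
  rw [h2, card_map, card_univ, Fintype.card_fin]

theorem card_comp {M k : ℕ} {a : Fin M → ℕ} {w : Fin k → Fin M}
    (hw : ∀ i, (univ.filter (fun p => w p = i)).card = a i) (P : Fin M → Prop) :
    (univ.filter (fun p => P (w p))).card = ∑ i ∈ univ.filter P, a i := by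
  rw [Finset.card_eq_sum_card_fiberwise (f := w) (t := univ.filter P)]
  · refine Finset.sum_congr rfl fun i hi => ?_
    rw [← hw i, filter_filter]
    congr 1
    ext p
    simp only [mem_filter, mem_univ, true_and]
    constructor
    · exact fun h => h.2
    · intro h
      exact ⟨by rw [h]; exact (mem_filter.1 hi).2, h⟩
  · intro p hp
    simp only [coe_filter, mem_univ, true_and, Set.mem_ofPred_eq] at hp ⊢
    exact hp

theorem sum_pow_inj {M : ℕ} {I I' : Finset (Fin M)}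
    (h : ∑ i ∈ I, 2 ^ (i : ℕ) = ∑ i ∈ I', 2 ^ (i : ℕ)) : I = I' := by
  have h1 : ∑ i ∈ I.map Fin.valEmbedding, 2 ^ i = ∑ i ∈ I'.map Fin.valEmbedding, 2 ^ i := by
    rw [sum_map, sum_map]
    exact h
  have h2 := Finset.geomSum_injective (n := 2) le_rfl h1
  exact Finset.map_injective _ h2

/-- the multiplicity of a letter different from the first one -/
def bb (T s : ℕ) {m : ℕ} (i : Fin (m + 1)) : ℕ := T * 2 ^ (i : ℕ) + s

theorem sum_bb (T s : ℕ) {m : ℕ} (I : Finset (Fin (m + 1))) :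
    ∑ i ∈ I, bb T s i = T * ∑ i ∈ I, 2 ^ (i : ℕ) + s * I.card := by
  unfold bb
  rw [sum_add_distrib, ← mul_sum, sum_const, smul_eq_mul, mul_comm s]

theorem card_lt_of_notMem {m : ℕ} {I : Finset (Fin (m + 1))} (h : (0 : Fin (m + 1)) ∉ I) :
    I.card ≤ m := by
  have h1 : I.card < (univ : Finset (Fin (m + 1))).card := by
    apply Finset.card_lt_card
    refine ⟨subset_univ _, fun h2 => h (h2 (mem_univ _))⟩
  rw [card_univ, Fintype.card_fin] at h1
  omega

theorem bb_inj {m J s s' : ℕ} (hs : 1 ≤ s) (hsJ : s ≤ J) (hs'J : s' ≤ J)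
    {I I' : Finset (Fin (m + 1))} (h0 : (0 : Fin (m + 1)) ∉ I) (h0' : (0 : Fin (m + 1)) ∉ I')
    (hI : I.Nonempty)
    (h : ∑ i ∈ I, bb ((m + 1) * J) s i = ∑ i ∈ I', bb ((m + 1) * J) s' i) :
    s = s' ∧ I = I' := by
  have hJ : 0 < J := by omega
  have hT : 0 < (m + 1) * J := by positivity
  rw [sum_bb, sum_bb] at h
  have hc := card_lt_of_notMem h0
  have hc' := card_lt_of_notMem h0'
  have hr : s * I.card < (m + 1) * J := by
    calc s * I.card ≤ J * m := Nat.mul_le_mul hsJ hc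
      _ < (m + 1) * J := by nlinarith
  have hr' : s' * I'.card < (m + 1) * J := by
    calc s' * I'.card ≤ J * m := Nat.mul_le_mul hs'J hc'
      _ < (m + 1) * J := by nlinarith
  have h1 : ∑ i ∈ I, 2 ^ (i : ℕ) = ∑ i ∈ I', 2 ^ (i : ℕ) := by
    have h2 : ((m + 1) * J * ∑ i ∈ I, 2 ^ (i : ℕ) + s * I.card) / ((m + 1) * J) =
        ∑ i ∈ I, 2 ^ (i : ℕ) := by
      rw [Nat.mul_add_div hT, Nat.div_eq_of_lt hr, Nat.add_zero]
    have h3 : ((m + 1) * J * ∑ i ∈ I', 2 ^ (i : ℕ) + s' * I'.card) / ((m + 1) * J) =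
        ∑ i ∈ I', 2 ^ (i : ℕ) := by
      rw [Nat.mul_add_div hT, Nat.div_eq_of_lt hr', Nat.add_zero]
    rw [← h2, ← h3, h]
  have hII := sum_pow_inj h1
  refine ⟨?_, hII⟩
  rw [h1, hII] at h
  have h4 : s * I'.card = s' * I'.card := by omega
  rw [hII] at hI
  exact Nat.eq_of_mul_eq_mul_right (Finset.card_pos.2 hI) h4

/-- the multiplicities of the word with the number `s` -/
def mult (k T s : ℕ) {m : ℕ} (i : Fin (m + 1)) : ℕ :=
  if i = 0 then k - ∑ i ∈ (univ : Finset (Fin (m + 1))).erase 0, bb T s i else bb T s i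

theorem sum_bb_le {m J s : ℕ} (hsJ : s ≤ J) {I : Finset (Fin (m + 1))}
    (h0 : (0 : Fin (m + 1)) ∉ I) :
    ∑ i ∈ I, bb ((m + 1) * J) s i ≤ (m + 1) * J * 2 ^ (m + 1) := by
  rw [sum_bb]
  have hc := card_lt_of_notMem h0
  have h1 : ∑ i ∈ I, 2 ^ (i : ℕ) + 1 ≤ 2 ^ (m + 1) := by
    have h2 : ∑ i ∈ I, 2 ^ (i : ℕ) ≤ ∑ i : Fin (m + 1), 2 ^ (i : ℕ) :=
      Finset.sum_le_sum_of_subset (subset_univ _)
    have h3 : ∑ i : Fin (m + 1), 2 ^ (i : ℕ) = ∑ i ∈ Finset.range (m + 1), 2 ^ i :=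
      (Finset.sum_range (fun i => 2 ^ i)).symm
    have h4 := Nat.geomSum_eq (le_refl 2) (m + 1)
    simp only [Nat.reduceSub, Nat.div_one] at h4
    have h5 : 1 ≤ 2 ^ (m + 1) := Nat.one_le_two_pow
    omega
  calc (m + 1) * J * ∑ i ∈ I, 2 ^ (i : ℕ) + s * I.card
      ≤ (m + 1) * J * ∑ i ∈ I, 2 ^ (i : ℕ) + (m + 1) * J := by
        apply Nat.add_le_add_left
        calc s * I.card ≤ J * m := Nat.mul_le_mul hsJ hc
          _ ≤ (m + 1) * J := by nlinarith
    _ = (m + 1) * J * (∑ i ∈ I, 2 ^ (i : ℕ) + 1) := by ring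
    _ ≤ _ := Nat.mul_le_mul_left _ h1

section

variable {m J k : ℕ} (hk : 2 * ((m + 1) * J * 2 ^ (m + 1)) ≤ k)

include hk

theorem sum_mult {s : ℕ} (hsJ : s ≤ J) :
    ∑ i, mult k ((m + 1) * J) s (m := m) i = k := by
  have h1 : ∑ i ∈ (univ : Finset (Fin (m + 1))).erase 0, bb ((m + 1) * J) s i ≤
      (m + 1) * J * 2 ^ (m + 1) := sum_bb_le hsJ (notMem_erase _ _)
  rw [← Finset.add_sum_erase _ _ (mem_univ (0 : Fin (m + 1)))]
  have h2 : ∑ i ∈ (univ : Finset (Fin (m + 1))).erase 0, mult k ((m + 1) * J) s i =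
      ∑ i ∈ (univ : Finset (Fin (m + 1))).erase 0, bb ((m + 1) * J) s i := by
    refine Finset.sum_congr rfl fun i hi => ?_
    rw [mult, if_neg (ne_of_mem_erase hi)]
  rw [h2, mult, if_pos rfl]
  omega

theorem sum_mult_not {s : ℕ} {I : Finset (Fin (m + 1))} (h0 : (0 : Fin (m + 1)) ∉ I) :
    ∑ i ∈ I, mult k ((m + 1) * J) s i = ∑ i ∈ I, bb ((m + 1) * J) s i := by
  refine Finset.sum_congr rfl fun i hi => ?_
  have h : i ≠ 0 := by
    rintro rfl
    exact h0 hi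
  rw [mult, if_neg h]

theorem sum_mult_compl {s : ℕ} (hsJ : s ≤ J) (I : Finset (Fin (m + 1))) :
    ∑ i ∈ I, mult k ((m + 1) * J) s i + ∑ i ∈ Iᶜ, mult k ((m + 1) * J) s i = k := by
  rw [Finset.sum_add_sum_compl]
  exact sum_mult hk hsJ

theorem mult_pos {s : ℕ} (hJ : 1 ≤ J) (hs : 1 ≤ s) (hsJ : s ≤ J) (i : Fin (m + 1)) :
    0 < mult k ((m + 1) * J) s i := by
  have hT : 0 < (m + 1) * J * 2 ^ (m + 1) := by positivity
  have h1 : ∑ i ∈ (univ : Finset (Fin (m + 1))).erase 0, bb ((m + 1) * J) s i ≤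
      (m + 1) * J * 2 ^ (m + 1) := sum_bb_le hsJ (notMem_erase _ _)
  unfold mult
  split_ifs with h
  · omega
  · unfold bb
    omega

/-- **distinct subset sums** -/
theorem mult_inj {s s' : ℕ} (hJ : 1 ≤ J) (hs : 1 ≤ s) (hsJ : s ≤ J) (hs1' : 1 ≤ s') (hs'J : s' ≤ J)
    {I I' : Finset (Fin (m + 1))} (hI : I.Nonempty)
    (hIc : Iᶜ.Nonempty) (hIc' : I'ᶜ.Nonempty)
    (h : ∑ i ∈ I, mult k ((m + 1) * J) s i = ∑ i ∈ I', mult k ((m + 1) * J) s' i) :
    s = s' ∧ I = I' := by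
  have hT : 0 < (m + 1) * J * 2 ^ (m + 1) := by positivity
  -- a set without 0 and a set with 0 have different sums
  have key : ∀ {s s' : ℕ} (_ : s ≤ J) (_ : 1 ≤ s') (_ : s' ≤ J) {I I' : Finset (Fin (m + 1))}
      (_ : (0 : Fin (m + 1)) ∉ I) (_ : (0 : Fin (m + 1)) ∈ I') (_ : I'ᶜ.Nonempty)
      (_ : ∑ i ∈ I, mult k ((m + 1) * J) s i = ∑ i ∈ I', mult k ((m + 1) * J) s' i), False := by
    intro s s' hsJ hs1' hs'J I I' h0 h0' hIc' h
    have h1 := sum_mult_compl hk hs'J I'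
    have h0c : (0 : Fin (m + 1)) ∉ I'ᶜ := fun h => (mem_compl.1 h) h0'
    rw [sum_mult_not hk h0c] at h1
    rw [sum_mult_not hk h0] at h
    have h2 := sum_bb_le (J := J) hsJ h0
    have h3 := sum_bb_le (J := J) hs'J h0c
    -- both sums are maximal only if something is wrong: use strictness
    have h4 : ∑ i ∈ I, bb ((m + 1) * J) s i < (m + 1) * J * 2 ^ (m + 1) := by
      rw [sum_bb]
      have hc := card_lt_of_notMem h0
      have h5 : ∑ i ∈ I, 2 ^ (i : ℕ) + 1 ≤ 2 ^ (m + 1) := by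
        have h2 : ∑ i ∈ I, 2 ^ (i : ℕ) ≤ ∑ i : Fin (m + 1), 2 ^ (i : ℕ) :=
          Finset.sum_le_sum_of_subset (subset_univ _)
        have h3 : ∑ i : Fin (m + 1), 2 ^ (i : ℕ) = ∑ i ∈ Finset.range (m + 1), 2 ^ i :=
          (Finset.sum_range (fun i => 2 ^ i)).symm
        have h4 := Nat.geomSum_eq (le_refl 2) (m + 1)
        simp only [Nat.reduceSub, Nat.div_one] at h4
        have h5 : 1 ≤ 2 ^ (m + 1) := Nat.one_le_two_pow
        omega
      calc (m + 1) * J * ∑ i ∈ I, 2 ^ (i : ℕ) + s * I.card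
          < (m + 1) * J * ∑ i ∈ I, 2 ^ (i : ℕ) + (m + 1) * J := by
            apply Nat.add_lt_add_left
            calc s * I.card ≤ J * m := Nat.mul_le_mul hsJ hc
              _ < (m + 1) * J := by nlinarith
        _ = (m + 1) * J * (∑ i ∈ I, 2 ^ (i : ℕ) + 1) := by ring
        _ ≤ _ := Nat.mul_le_mul_left _ h5
    omega
  by_cases h0 : (0 : Fin (m + 1)) ∈ I
  · by_cases h0' : (0 : Fin (m + 1)) ∈ I'
    · have h1 := sum_mult_compl hk hsJ I
      have h2 := sum_mult_compl hk hs'J I'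
      have h0c : (0 : Fin (m + 1)) ∉ Iᶜ := fun h => (mem_compl.1 h) h0
      have h0c' : (0 : Fin (m + 1)) ∉ I'ᶜ := fun h => (mem_compl.1 h) h0'
      have h3 : ∑ i ∈ Iᶜ, bb ((m + 1) * J) s i = ∑ i ∈ I'ᶜ, bb ((m + 1) * J) s' i := by
        rw [← sum_mult_not hk h0c, ← sum_mult_not hk h0c']
        omega
      obtain ⟨h4, h5⟩ := bb_inj hs hsJ hs'J h0c h0c' hIc h3
      exact ⟨h4, compl_injective h5⟩
    · exact (key hs'J hs hsJ h0' h0 hIc h.symm).elim
  · by_cases h0' : (0 : Fin (m + 1)) ∈ I'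
    · exact (key hsJ hs1' hs'J h0 h0' hIc' h).elim
    · rw [sum_mult_not hk h0, sum_mult_not hk h0'] at h
      exact bb_inj hs hsJ hs'J h0 h0' hI h

end

end Run7.h380.SY
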